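import Pool.Agent.W516.MTZ.Defs

/-!
# The points of the unipotent motivic Galois group over a field
-/

set_option autoImplicit false

namespace Pool.Agent.W516.MTP

open Matrix MvPolynomial Pool.Agent.W516.MTZ

variable {m X : Type} [Fintype m] [DecidableEq m] [Fintype X] [DecidableEq X]

/-- The points over a field `K` of the unipotent part of the motivic Galois group of `M`: the group
of matrices which is generated by the matrices `exp (c N)` with `c ∈ K`, where `N = op x` is the
action of a generator. -/
noncomputable def unip (M : Motive m X) (K : Type) [Field K] [CharZero K] :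
    Subgroup (Matrix m m K)ˣ :=
  Subgroup.closure {g : (Matrix m m K)ˣ | ∃ (c : K) (x : X),
    (g : Matrix m m K) = IsNilpotent.exp (c • (M.op x).map (algebraMap ℚ K))}

/-- The polynomials of `R` vanish at the matrix `B`. -/
def Vanish {K : Type} [Field K] [CharZero K] (R : Set (MvPolynomial (m × m) ℚ))
    (B : Matrix m m K) : Prop :=
  ∀ f ∈ R, aeval (fun k : m × m => B k.1 k.2) f = 0

end Pool.Agent.W516.MTP
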