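import Pool.Agent.W516.MTP.Stm
import Pool.Agent.W516.MTH.Sv

/-!
# Systems of relations which are stable under the single-valued matrix
-/

set_option autoImplicit false
set_option linter.unusedSectionVars false

namespace Pool.Agent.W516.MTP

open Matrix MvPolynomial Pool.Agent.W516.MTZ Pool.Agent.W516.MTH

variable {m X : Type} [Fintype m] [DecidableEq m] [Fintype X] [DecidableEq X]

/-- The motivic Galois group is generated by the torus and the element `p⁻¹ σ(p)`. -/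
theorem gp_eq_closure {M : Motive m X} {p : (Matrix m m ℂ)ˣ} (hp : p ∈ M.gp) (σ : ℂ ≃+* ℂ)
    (hinj : Function.Injective M.deg)
    (hz : ∀ x, σ ((p : Matrix m m ℂ) M.o (M.s x)) -
      (σ ((p : Matrix m m ℂ) M.t M.t) / (p : Matrix m m ℂ) M.t M.t) ^ M.deg x *
        (p : Matrix m m ℂ) M.o (M.s x) ≠ 0) :
    M.gp = Subgroup.closure ({g | ∃ μ : ℂˣ, g = dg M μ} ∪ {p⁻¹ * sg σ p}) := by
  have hle : Subgroup.closure ({g | ∃ μ : ℂˣ, g = dg M μ} ∪ {p⁻¹ * sg σ p}) ≤ M.gp := by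
    rw [Subgroup.closure_le]
    rintro g (⟨μ, rfl⟩ | hg)
    · exact dg_mem M μ
    · rw [Set.mem_singleton_iff] at hg
      rw [hg]
      exact Subgroup.mul_mem _ (Subgroup.inv_mem _ hp) (sg_mem M σ hp)
  refine le_antisymm ?_ hle
  exact gp_le_conj hle (fun μ => Subgroup.subset_closure (Or.inl ⟨μ, rfl⟩)) hp σ
    (Subgroup.subset_closure (Or.inr rfl)) hinj hz

theorem sg_sg (σ : ℂ ≃+* ℂ) (hσ : ∀ z, σ (σ z) = z) (g : (Matrix m m ℂ)ˣ) :
    sg σ (sg σ g) = g := by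
  apply Units.ext
  ext i j
  rw [sg_apply, sg_apply, hσ]

/-- A set which is stable under the torus, under `σ` and under `p⁻¹ σ(p)` is stable under the
motivic Galois group. -/
theorem stable_gp {M : Motive m X} {p : (Matrix m m ℂ)ˣ} (hp : p ∈ M.gp) (σ : ℂ ≃+* ℂ)
    (hσσ : ∀ z, σ (σ z) = z) (hinj : Function.Injective M.deg)
    (hz : ∀ x, σ ((p : Matrix m m ℂ) M.o (M.s x)) -
      (σ ((p : Matrix m m ℂ) M.t M.t) / (p : Matrix m m ℂ) M.t M.t) ^ M.deg x *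
        (p : Matrix m m ℂ) M.o (M.s x) ≠ 0)
    (Z : Set (Matrix m m ℂ)ˣ) (hZσ : ∀ g ∈ Z, sg σ g ∈ Z) (hZd : ∀ g ∈ Z, ∀ μ : ℂˣ, g * dg M μ ∈ Z)
    (hZs : ∀ g ∈ Z, g * (p⁻¹ * sg σ p) ∈ Z) : ∀ g ∈ Z, ∀ h ∈ M.gp, g * h ∈ Z := by
  have hinv : (p⁻¹ * sg σ p)⁻¹ = sg σ (p⁻¹ * sg σ p) := by
    rw [map_mul, sg_sg σ hσσ, map_inv, _root_.mul_inv_rev, inv_inv]
  have hZs' : ∀ g ∈ Z, g * (p⁻¹ * sg σ p)⁻¹ ∈ Z := by
    intro g hg
    have h1 := hZσ _ (hZs _ (hZσ g hg))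
    rw [map_mul, sg_sg σ hσσ, ← hinv] at h1
    exact h1
  let H : Subgroup (Matrix m m ℂ)ˣ :=
    { carrier := {h | (∀ g ∈ Z, g * h ∈ Z) ∧ ∀ g ∈ Z, g * h⁻¹ ∈ Z}
      one_mem' := ⟨fun g hg => by rwa [mul_one], fun g hg => by rwa [inv_one, mul_one]⟩
      mul_mem' := by
        rintro a b ⟨ha, ha'⟩ ⟨hb, hb'⟩
        refine ⟨fun g hg => ?_, fun g hg => ?_⟩
        · rw [← mul_assoc]
          exact hb _ (ha _ hg)
        · rw [_root_.mul_inv_rev, ← mul_assoc]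
          exact ha' _ (hb' _ hg)
      inv_mem' := by
        rintro a ⟨ha, ha'⟩
        exact ⟨ha', fun g hg => by rw [inv_inv]; exact ha g hg⟩ }
  have hle : M.gp ≤ H := by
    rw [gp_eq_closure hp σ hinj hz, Subgroup.closure_le]
    rintro g (⟨μ, rfl⟩ | hg)
    · exact ⟨fun g hg => hZd g hg μ, fun g hg => by rw [← dg_inv]; exact hZd g hg μ⁻¹⟩
    · rw [Set.mem_singleton_iff] at hg
      rw [hg]
      exact ⟨hZs, hZs'⟩
  intro g hg h hh
  exact (hle hh).1 g hg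

theorem main_p (hPt : StPt) {M : Motive m X} {p : (Matrix m m ℂ)ˣ} (hp : p ∈ M.gp)
    (hdeg : ∀ x, Odd (M.deg x) ∧ 3 ≤ M.deg x) (hinj : Function.Injective M.deg)
    (hpi : (p : Matrix m m ℂ) M.t M.t = 2 * Real.pi * Complex.I)
    (hzeta : ∀ x, (p : Matrix m m ℂ) M.o (M.s x) = riemannZeta (M.deg x))
    (R : Set (MvPolynomial (m × m) ℚ))
    (hR : ∀ f ∈ R, ∃ n, f.IsWeightedHomogeneous (fun k => M.wt k.2) n)
    (hRp : Vanish R (p : Matrix m m ℂ))
    (hRs : ∀ B : (Matrix m m ℂ)ˣ, Vanish R (B : Matrix m m ℂ) → Vanish R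
      ((B : Matrix m m ℂ) *
        (((p⁻¹ : (Matrix m m ℂ)ˣ) : Matrix m m ℂ) * (p : Matrix m m ℂ).map (starRingEnd ℂ)))) :
    (∀ g ∈ M.gp, Vanish R ((g : (Matrix m m ℂ)ˣ) : Matrix m m ℂ)) ∧
    ∀ (K : Type) [Field K] [CharZero K], ∀ u ∈ unip M K, ∀ l : K,
      Vanish R (diagonal (fun i => l ^ M.wt i) * ((u : (Matrix m m K)ˣ) : Matrix m m K)) := by
  have hcj : ∀ z, cj (cj z) = z := fun z => by
    rw [cj_apply, cj_apply, Complex.conj_conj]
  have hs_val : ((p⁻¹ * sg cj p : (Matrix m m ℂ)ˣ) : Matrix m m ℂ) =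
      ((p⁻¹ : (Matrix m m ℂ)ˣ) : Matrix m m ℂ) * (p : Matrix m m ℂ).map (starRingEnd ℂ) := by
    rw [Units.val_mul]
    rfl
  have hall : ∀ g ∈ M.gp, Vanish R ((g : (Matrix m m ℂ)ˣ) : Matrix m m ℂ) := by
    have h1 := stable_gp hp cj hcj hinj (conj_ne hdeg hpi hzeta)
      {g | Vanish R ((g : (Matrix m m ℂ)ˣ) : Matrix m m ℂ)} ?_ ?_ ?_
    · intro g hg
      have h2 := h1 p hRp (p⁻¹ * g) (Subgroup.mul_mem _ (Subgroup.inv_mem _ hp) hg)
      rw [mul_inv_cancel_left] at h2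
      exact h2
    · intro g hg f hf
      have h2 := aeval_sg cj g f
      have h3 : aeval (crd (g : Matrix m m ℂ)) f = 0 := hg f hf
      rw [h3, map_zero] at h2
      exact h2
    · intro g hg μ f hf
      obtain ⟨n, hn⟩ := hR f hf
      have h3 : aeval (crd (g : Matrix m m ℂ)) f = 0 := hg f hf
      have h4 : aeval (crd ((g * dg M μ : (Matrix m m ℂ)ˣ) : Matrix m m ℂ)) f =
          (μ : ℂ) ^ n * aeval (crd (g : Matrix m m ℂ)) f := by
        rw [aeval_def, aeval_def, eval₂_eq', eval₂_eq', Finset.mul_sum]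
        refine Finset.sum_congr rfl fun d hd => ?_
        have h5 := hn (mem_support_iff.1 hd)
        have h6 : ∏ i, crd ((g * dg M μ : (Matrix m m ℂ)ˣ) : Matrix m m ℂ) i ^ d i =
            (μ : ℂ) ^ n * ∏ i, crd (g : Matrix m m ℂ) i ^ d i := by
          have h7 : ∀ i, crd ((g * dg M μ : (Matrix m m ℂ)ˣ) : Matrix m m ℂ) i =
              (μ : ℂ) ^ M.wt i.2 * crd (g : Matrix m m ℂ) i := by
            intro i
            rw [crd, crd, Units.val_mul, dg_val, mul_diagonal, mul_comm]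
          simp only [h7, mul_pow]
          rw [Finset.prod_mul_distrib]
          congr 1
          rw [← h5, Finsupp.weight_apply, Finsupp.sum_fintype _ _ (fun i => by simp),
            ← Finset.prod_pow_eq_pow_sum]
          refine Finset.prod_congr rfl fun i _ => ?_
          rw [← pow_mul, smul_eq_mul, mul_comm]
        rw [h6]
        ring
      change aeval (crd ((g * dg M μ : (Matrix m m ℂ)ˣ) : Matrix m m ℂ)) f = 0
      rw [h4, h3, mul_zero]
    · intro g hg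
      have h2 := hRs g hg
      rw [← hs_val, ← Units.val_mul] at h2
      exact h2
  refine ⟨hall, fun K _ _ u hu l f hf => ?_⟩
  exact hPt m X M f (fun g hg => hall g hg f hf) K u hu l

end Pool.Agent.W516.MTP
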