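import Pool.Agent.W516.MTP.Defs

/-!
# Statements of the parts of project MTP
-/

set_option autoImplicit false

namespace Pool.Agent.W516.MTP

open Matrix MvPolynomial Pool.Agent.W516.MTZ

/-- MTP-PT. -/
def StPt : Prop :=
  ∀ (m X : Type) [Fintype m] [DecidableEq m] [Fintype X] [DecidableEq X] (M : Motive m X)
    (f : MvPolynomial (m × m) ℚ),
    (∀ g ∈ M.gp, aeval (crd ((g : (Matrix m m ℂ)ˣ) : Matrix m m ℂ)) f = 0) →
    ∀ (K : Type) [Field K] [CharZero K], ∀ u ∈ unip M K, ∀ l : K,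
      aeval (fun k : m × m => (diagonal (fun i => l ^ M.wt i) *
        ((u : (Matrix m m K)ˣ) : Matrix m m K)) k.1 k.2) f = 0

end Pool.Agent.W516.MTP
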